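import Pool.Agent.R296.PSEMain

/-!
# Unique, automorphically equivalent extensions of two pure states: a negative answer (in ZFC)

There are a simple unital C*-algebra `A` and pure states `φ`, `ψ` on `A` such that no C*-algebra
`B` containing `A` has the property that `φ` and `ψ` have unique state extensions to `B` which are
equivalent under an automorphism of `B`.

`A` is the C*-algebra on `ℓ²(Γ)`, `Γ = ℕ →₀ ZMod 2`, generated by the translations and all
characters of `Γ`; `ψ` is the vector state at `δ₀` (value `1` at all characters) and `φ` the state
with value `1` at all translations.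

Proof. Call a state countably determined if it is the only state with value `1` at each of
countably many (fixed) elements of norm at most `1`. If a state of `A` has a unique state extension
to `B`, then the state is countably determined if and only if its extension is (one direction is
clear, the other one is a compactness argument in the set of positive functionals of norm at most
`1` on `B`). Automorphisms preserve the property. Now `φ` is countably determined, because `Γ` is
countable, and `ψ` is not, because the group of characters of `Γ` is uncountable.
-/

set_option autoImplicit false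

universe u

namespace Pool.Agent.Results.MP_8219a1_an.NoCommonExtension

open Pool.Agent.R296.PSE

/-- **Negative answer to Q1.** There are a simple (unital) C*-algebra `A` and pure states `φ`, `ψ`
on `A` such that for every C*-algebra `B` and every embedding `ι` of `A` into `B` it is not the
case that `φ` and `ψ` have unique state extensions `φ'`, `ψ'` to `B` with `φ' = ψ' ∘ α` for an
automorphism `α` of `B`. -/
theorem result : ∃ (A : Type) (_ : CStarAlgebra A) (φ ψ : A →L[ℂ] ℂ),
    IsSimpleCStarAlgebra A ∧ IsPureState φ ∧ IsPureState ψ ∧
    ∀ (B : Type u) [NonUnitalCStarAlgebra B] (ι : A →⋆ₙₐ[ℂ] B), Function.Injective ι →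
      ¬ ∃ φ' ψ' : B →L[ℂ] ℂ, IsUniqueStateExtension ι φ φ' ∧ IsUniqueStateExtension ι ψ ψ' ∧
        ∃ α : B ≃⋆ₐ[ℂ] B, ∀ b, φ' b = ψ' (α b) := by
  refine ⟨Pool.Agent.R296.Weyl.AA, inferInstance, Pool.Agent.R296.Weyl.phi,
    Pool.Agent.R296.Weyl.psi, Pool.Agent.R296.Weyl.AA_simple', Pool.Agent.R296.Weyl.phi_pure,
    Pool.Agent.R296.Weyl.psi_pure, ?_⟩
  intro B _ ι _ h
  obtain ⟨φ', ψ', h1, h2, α, hα⟩ := h
  exact Pool.Agent.R296.Weyl.main_no h1 h2 α hα

end Pool.Agent.Results.MP_8219a1_an.NoCommonExtension
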